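import Pool.Agent.Q234.PE.Stm
import Pool.Agent.Q68.PL.TH

/-!
# Project PE, job SE: from the ring to the torus, in one sector
-/

set_option autoImplicit false
set_option linter.unusedSectionVars false

open scoped BigOperators Matrix
open Finset Pool.Agent.TH235.PP Pool.Agent.Q234.PL Pool.Agent.Q234.PE

namespace Pool.Agent.Q262.PE.SE

open Pool.Agent.Q68.PL Pool.Agent.Q68.PL.TOjob Pool.Agent.Q68.PL.THjob

/-- the operator on the row `y` -/
theorem hy_loc {N : ℕ} (W : Matrix (Cf N) (Cf N) ℂ) (y : Fin (N + 1)) (s t : Site (N + 1) → Fin 2) :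
    Hy W y ((rowsE N).symm s) ((rowsE N).symm t) = loc (row (y : ZMod (N + 1))) W s t := by
  have k : (∀ z, z ≠ y → (rowsE N).symm s z = (rowsE N).symm t z) ↔
      ∀ i, (∀ j, row (N := N) (y : ZMod (N + 1)) j ≠ i) → s i = t i := by
    constructor
    · intro h i hi
      obtain ⟨a, b⟩ := i
      have hb : b ≠ (y : ZMod (N + 1)) := by
        intro hb
        exact hi a (by rw [hb]; rfl)
      exact congrFun (h b hb) a
    · intro h z hz
      funext a
      exact h (a, z) fun j hj => hz (congrArg Prod.snd hj).symm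
  unfold Hy Pool.Agent.Q234.PE.loc
  by_cases h : ∀ z, z ≠ y → (rowsE N).symm s z = (rowsE N).symm t z
  · rw [if_pos h, if_pos (k.1 h)]
    rfl
  · rw [if_neg h, if_neg fun h' => h (k.2 h')]

/-- the Hamiltonian of the torus is the sum of the Hamiltonians of the rows -/
theorem ham_loc (lam : ℝ) {N : ℕ} (hN : 1 ≤ N) :
    ham (ising lam) (N + 1) = ∑ y : ZMod (N + 1), loc (row y) (ringH lam N) := by
  rw [ham_eq lam hN]
  ext s t
  rw [Matrix.submatrix_apply, Matrix.sum_apply, Matrix.sum_apply]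
  exact Finset.sum_congr rfl fun y _ => hy_loc (ringH lam N) y s t

theorem ip_sum {n κ : Type} [Fintype n] (x : n → ℂ) (S : Finset κ) (f : κ → n → ℂ) :
    ip x (∑ k ∈ S, f k) = ∑ k ∈ S, ip x (f k) := by
  classical
  induction S using Finset.induction_on with
  | empty =>
    rw [sum_empty, sum_empty]
    unfold ip
    simp
  | insert a S ha ih => rw [sum_insert ha, sum_insert ha, ip_add_right, ih]

theorem inPar_slice {N : ℕ} {σ : ZMod (N + 1) → ℝ} {χ : (Site (N + 1) → Fin 2) → ℂ}
    (h : InSec σ χ) (y : ZMod (N + 1)) (s : Site (N + 1) → Fin 2) :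
    InPar (σ y) fun q => χ (put (row y) q s) := by
  intro q hq
  have h1 := h _ hq y
  rw [← h1]
  refine prod_congr rfl fun x _ => ?_
  rw [put_apply (row_inj y)]

theorem main : SecE := by
  intro N lam E R hN hR σ χ hσ hχ
  have hrow : ∀ y : ZMod (N + 1), E * normSq χ + (1 / 2) * ∑ k : Fin (N + 1),
      nn R σ χ ((k : ZMod (N + 1)), y) ≤ (ip χ (loc (row y) (ringH lam N) *ᵥ χ)).re := by
    intro y
    have hc : (0 : ℝ) < Fintype.card (Fin (N + 1) → Fin 2) := card_pos'
    have h1 := ip_loc (row_inj (N := N) y) (ringH lam N) χ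
    have h2 := congrArg Complex.re h1
    rw [Complex.re_sum] at h2
    have h3 : (((Fintype.card (Fin (N + 1) → Fin 2) : ℕ) : ℂ) *
        ip χ (loc (row y) (ringH lam N) *ᵥ χ)).re =
        (Fintype.card (Fin (N + 1) → Fin 2) : ℝ) * (ip χ (loc (row y) (ringH lam N) *ᵥ χ)).re := by
      rw [← Complex.ofReal_natCast, Complex.re_ofReal_mul]
    rw [h3] at h2
    have h4 : ∑ s, (E * normSq (fun q => χ (put (row y) q s)) +
        (1 / 2) * ∑ k, normSq (annih (R (σ y)) (ev k) *ᵥ fun q => χ (put (row y) q s))) ≤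
        ∑ s, (ip (fun q => χ (put (row y) q s)) (ringH lam N *ᵥ fun q => χ (put (row y) q s))).re :=
      sum_le_sum fun s _ => hR (σ y) (hσ y) _ (inPar_slice hχ y s)
    rw [← h2, sum_add_distrib, ← mul_sum, ← mul_sum, normSq_slices (row_inj (N := N) y), sum_comm] at h4
    have h5 : ∑ k, ∑ s, normSq (annih (R (σ y)) (ev k) *ᵥ fun q => χ (put (row y) q s)) =
        (Fintype.card (Fin (N + 1) → Fin 2) : ℝ) * ∑ k : Fin (N + 1),
          nn R σ χ ((k : ZMod (N + 1)), y) := by
      rw [mul_sum]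
      refine sum_congr rfl fun k _ => ?_
      exact (normSq_loc (row_inj (N := N) y) _ χ).symm
    rw [h5] at h4
    refine le_of_mul_le_mul_left ?_ hc
    linarith
  rw [ham_loc lam hN, Matrix.sum_mulVec, ip_sum, Complex.re_sum]
  have h6 : ∑ y : ZMod (N + 1), (E * normSq χ + (1 / 2) * ∑ k : Fin (N + 1),
      nn R σ χ ((k : ZMod (N + 1)), y)) ≤
      ∑ y : ZMod (N + 1), (ip χ (loc (row y) (ringH lam N) *ᵥ χ)).re :=
    sum_le_sum fun y _ => hrow y
  refine le_trans (le_of_eq ?_) h6
  rw [sum_add_distrib, sum_const, card_univ, nsmul_eq_mul, ZMod.card, ← mul_sum]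
  have h7 : ∑ v : Site (N + 1), nn R σ χ v =
      ∑ y : ZMod (N + 1), ∑ k : Fin (N + 1), nn R σ χ ((k : ZMod (N + 1)), y) :=
    Fintype.sum_prod_type_right _
  rw [h7]
  push_cast
  ring

end Pool.Agent.Q262.PE.SE
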