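import Pool.Agent.Q234.PE.Stm

/-!
# Project PE, job TC: translations of the torus
-/

set_option autoImplicit false
set_option linter.unusedSectionVars false

open scoped BigOperators Matrix
open Finset Pool.Agent.TH235.PP Pool.Agent.Q234.PL Pool.Agent.Q234.PE

namespace Pool.Agent.Q262.PE.TC

/-- the identity, from `ZMod (N + 1)` to `Fin (N + 1)` -/
def tf {N : ℕ} (x : ZMod (N + 1)) : Fin (N + 1) := x

theorem inPar_rot {N : ℕ} {ε : ℝ} {f : Cf N → ℂ} (hf : InPar ε f) (a : Fin (N + 1)) :
    InPar ε fun s => f fun i => s (i + a) := by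
  intro s hs
  rw [← hf _ hs]
  exact (Equiv.prod_comp (Equiv.addRight a) fun j => sgn (s j)).symm

/-- the ring: rotation by `a` -/
theorem rot (h : CovX) {N : ℕ} {ε lam : ℝ} {R : Matrix (Fin (N + 1)) (Fin (N + 1)) ℝ}
    (hε : ε = 1 ∨ ε = -1) (hl : 0 < lam) (hR : RootOf N ε lam R) {f : Cf N → ℂ} (hf : InPar ε f)
    (a : Fin (N + 1)) : ∀ k : Fin (N + 1),
    normSq (annih R (ev (k + a)) *ᵥ fun s => f fun i => s (i + a)) = normSq (annih R (ev k) *ᵥ f) := by
  induction a using Fin.induction with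
  | zero =>
    intro k
    simp only [add_zero]
  | succ i ih =>
    intro k
    rw [← ih k, ← h N ε lam R hε hl hR _ (inPar_rot hf i.castSucc) (k + i.castSucc),
      ← Fin.coeSucc_eq_succ]
    simp only [add_assoc]

theorem inPar_slice {N : ℕ} {σ : ZMod (N + 1) → ℝ} {χ : (Site (N + 1) → Fin 2) → ℂ}
    (h : InSec σ χ) (y : ZMod (N + 1)) (s : Site (N + 1) → Fin 2) :
    InPar (σ y) fun q => χ (put (row y) q s) := by
  intro q hq
  have h1 := h _ hq y
  rw [← h1]
  refine prod_congr rfl fun x _ => ?_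
  rw [put_apply (row_inj y)]

/-- the slices of a translate -/
theorem put_tr {N : ℕ} (u : Site (N + 1)) (y : ZMod (N + 1)) (q : Fin (N + 1) → Fin 2)
    (s : Site (N + 1) → Fin 2) :
    (fun w => put (row y) q s (w + u)) =
      put (row (y - u.2)) (fun i : Fin (N + 1) => q (i + tf u.1)) (fun w => s (w + u)) := by
  refine put_ext (e := row (N := N) (y - u.2)) (fun j => ?_) fun i hi => ?_
  · rw [put_apply (row_inj _)]
    have h1 : (row (N := N) (y - u.2) j) + u = row (N := N) y (j + tf u.1) :=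
      Prod.ext rfl (sub_add_cancel y u.2)
    rw [h1, put_apply (row_inj _)]
  · rw [put_off _ _ i hi, put_off _ _ (i + u)]
    intro j hj
    refine hi (j - tf u.1) ?_
    have h1 : row (N := N) (y - u.2) (j - tf u.1) = row (N := N) y j - u := Prod.ext rfl rfl
    rw [h1, hj, add_sub_cancel_right]

theorem main (h : CovX) : TorCov := by
  intro N lam R hl hR σ χ hσ hχ u v
  have hc : (0 : ℝ) < Fintype.card (Fin (N + 1) → Fin 2) := card_pos'
  unfold nn
  have e1 := normSq_loc (row_inj (N := N) v.2) (annih (R (σ (v.2 - u.2))) (ev v.1)) (tr u χ)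
  have e2 := normSq_loc (row_inj (N := N) (v - u).2) (annih (R (σ (v - u).2)) (ev (v - u).1)) χ
  have key : ∑ s, normSq (annih (R (σ (v.2 - u.2))) (ev v.1) *ᵥ fun q => tr u χ (put (row v.2) q s)) =
      ∑ s, normSq (annih (R (σ (v - u).2)) (ev (v - u).1) *ᵥ fun q => χ (put (row (v - u).2) q s)) := by
    rw [← Equiv.sum_comp (Equiv.arrowCongr (Equiv.addRight (-u)) (Equiv.refl (Fin 2))) fun s =>
      normSq (annih (R (σ (v - u).2)) (ev (v - u).1) *ᵥ fun q => χ (put (row (v - u).2) q s))]
    refine sum_congr rfl fun s _ => ?_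
    have hs : (Equiv.arrowCongr (Equiv.addRight (-u)) (Equiv.refl (Fin 2))) s = fun w => s (w + u) := by
      funext w
      show s ((Equiv.addRight (-u)).symm w) = s (w + u)
      congr 1
      show w + -(-u) = w + u
      rw [neg_neg]
    rw [hs]
    have hpar := inPar_slice hχ (v.2 - u.2) (fun w => s (w + u))
    have hk := rot h (hσ (v.2 - u.2)) hl (hR _ (hσ (v.2 - u.2))) hpar (tf u.1)
      (tf (v.1 - u.1))
    have hv : tf (v.1 - u.1) + tf u.1 = tf v.1 :=
      sub_add_cancel (v.1 : ZMod (N + 1)) u.1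
    rw [hv] at hk
    refine Eq.trans ?_ hk
    congr 2
    funext q
    show χ (fun w => put (row v.2) q s (w + u)) = _
    rw [put_tr]
  rw [key, ← e2] at e1
  exact mul_left_cancel₀ hc.ne' e1

end Pool.Agent.Q262.PE.TC
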